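import Pool.Agent.Work.MP_a9587b_co.Saturated

/-!
Counterexample to the question: on the twice-punctured monogon there are, for a fixed ideal
triangulation `T`, arcs with arbitrarily long snake graphs and saturated Newton polytopes.
-/

namespace Pool.Agent.Results.MP_a9587b_co.TwicePuncturedMonogon

open Pool.Agent.Work.MP_a9587b_co

/-- There is an ideal triangulation `T` of the twice-punctured monogon (three marked points, two of
which are punctures, four arcs, one boundary segment, three triangles) such that for every `B` there
is an arc which crosses `T` more than `B` times, whose Laurent expansion (given by the perfect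
matchings of its snake graph) is a cluster variable of the cluster algebra with boundary frozen
variables, and whose Newton polytope is saturated. -/
theorem result : ∃ T : IdealTriangulation,
    Nat.card T.V = 3 ∧ Nat.card {p : T.V // IsPuncture T p} = 2 ∧
    Nat.card T.E = 5 ∧ Nat.card {e : T.E // IsBoundary T e} = 1 ∧ Nat.card T.F = 3 ∧
    ∀ B : ℕ, ∃ γ : Arc T, B < γ.crossings ∧ IsClusterVariable T γ.expansion ∧
      IsSaturated T γ.expansion := by
  refine ⟨monogon, ?_, card_puncture, ?_, card_boundary, ?_, ?_⟩
  · exact Nat.card_eq_fintype_card (α := Fin 3)
  · exact Nat.card_eq_fintype_card (α := Fin 5)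
  · exact Nat.card_eq_fintype_card (α := Fin 3)
  · intro B
    refine ⟨spiralArc B, ?_, expansion_isClusterVariable B, ?_⟩
    · change B < 3 * B + 1
      omega
    · change IsSaturated monogon (snakeExpansion monogon (3 * B + 1) sp)
      rw [expansion_odd]
      exact saturated (B + 1) (by omega)

end Pool.Agent.Results.MP_a9587b_co.TwicePuncturedMonogon
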